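import Mathlib

/-!
A finite equational basis for the variety generated by the three-element involutive unital
band `C₃ˢ`.
-/

namespace Pool.Agent.Results.MP_7f507d_al.FiniteBasis

universe u

/-- An algebra of type `(·, ¬, 1)`. -/
structure Alg (M : Type u) where
  mul : M → M → M
  neg : M → M
  one : M

/-- Terms of type `(·, ¬, 1)` in the variables `x₀, x₁, …`. -/
inductive Tm where
  | var : ℕ → Tm
  | mul : Tm → Tm → Tm
  | neg : Tm → Tm
  | one : Tm

/-- The value of a term. -/
def eval {M : Type u} (A : Alg M) (v : ℕ → M) : Tm → M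
  | .var i => v i
  | .mul s t => A.mul (eval A v s) (eval A v t)
  | .neg s => A.neg (eval A v s)
  | .one => A.one

/-- The identity `p.1 ≈ p.2` holds in the algebra `A`. -/
def Holds {M : Type u} (A : Alg M) (p : Tm × Tm) : Prop :=
  ∀ v : ℕ → M, eval A v p.1 = eval A v p.2

/-- The three elements of `C₃ˢ`: `e` is the unit, `n = ¬ c`. -/
inductive C3 where
  | e | c | n
  deriving DecidableEq, Fintype

/-- The algebra `C₃ˢ`: the chain `n < c < e` with meet, `¬` fixes `e` and swaps `c`, `n`. -/
def C3s : Alg C3 where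
  mul x y := match x, y with
    | .e, y => y
    | x, .e => x
    | .c, .c => .c
    | _, _ => .n
  neg x := match x with
    | .e => .e
    | .c => .n
    | .n => .c
  one := .e

/-- The term `⊥ₛ = s · ¬ s`. -/
def Tm.bot (s : Tm) : Tm := .mul s (.neg s)

/-- The term `⊤ₛ = ¬ (¬ s · s)`. -/
def Tm.top (s : Tm) : Tm := .neg (.mul (.neg s) s)

/-- The variables `x, y, z`. -/
def vx : Tm := .var 0
def vy : Tm := .var 1
def vz : Tm := .var 2

/-- The basis: the laws of commutative idempotent monoids, `¬ ¬ x ≈ x`, `¬ 1 ≈ 1` and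
four more identities. -/
def basis : List (Tm × Tm) :=
  [ (.mul (.mul vx vy) vz, .mul vx (.mul vy vz)),
    (.mul vx vy, .mul vy vx),
    (.mul vx vx, vx),
    (.mul .one vx, vx),
    (.neg (.neg vx), vx),
    (.neg .one, .one),
    ((Tm.mul vx vy).bot, .mul vx.bot vy.bot),
    (.mul vx vx.top, vx),
    (.mul vx (.neg (.mul vx vy)), .mul vx (.neg (.mul vy vx.top))),
    (.mul (.neg vx) (Tm.mul vx vy).top,
      .neg (.mul (.neg (.mul vx.bot (Tm.mul vx vy).top)) (.mul vx (Tm.mul vx vy).top))) ]

/-! ### The laws in an algebra -/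

/-- The laws of the basis, in an algebra. -/
structure Laws {M : Type u} (A : Alg M) : Prop where
  assoc : ∀ x y z, A.mul (A.mul x y) z = A.mul x (A.mul y z)
  comm : ∀ x y, A.mul x y = A.mul y x
  idem : ∀ x, A.mul x x = x
  one_mul : ∀ x, A.mul A.one x = x
  neg_neg : ∀ x, A.neg (A.neg x) = x
  neg_one : A.neg A.one = A.one
  bot_mul : ∀ x y, A.mul (A.mul x y) (A.neg (A.mul x y)) =
    A.mul (A.mul x (A.neg x)) (A.mul y (A.neg y))
  mul_top : ∀ x, A.mul x (A.neg (A.mul (A.neg x) x)) = x
  frink : ∀ x y, A.mul x (A.neg (A.mul x y)) =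
    A.mul x (A.neg (A.mul y (A.neg (A.mul (A.neg x) x))))
  push : ∀ x y, A.mul (A.neg x) (A.neg (A.mul (A.neg (A.mul x y)) (A.mul x y))) =
    A.neg (A.mul (A.neg (A.mul (A.mul x (A.neg x)) (A.neg (A.mul (A.neg (A.mul x y)) (A.mul x y)))))
      (A.mul x (A.neg (A.mul (A.neg (A.mul x y)) (A.mul x y)))))

lemma laws_of_basis {M : Type u} (A : Alg M) (h : ∀ p ∈ basis, Holds A p) : Laws A := by
  have key : ∀ p ∈ basis, ∀ x y z : M,
      eval A (fun i => if i = 0 then x else if i = 1 then y else z) p.1 =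
      eval A (fun i => if i = 0 then x else if i = 1 then y else z) p.2 :=
    fun p hp x y z => h p hp _
  simp only [basis, List.mem_cons, List.not_mem_nil, or_false, forall_eq_or_imp, forall_eq,
    eval, vx, vy, vz, Tm.bot, Tm.top] at key
  simp only [if_true, one_ne_zero, if_false, OfNat.ofNat_ne_zero, OfNat.ofNat_ne_one] at key
  obtain ⟨h1, h2, h3, h4, h5, h6, h7, h8, h9, h10⟩ := key
  exact ⟨h1, fun x y => h2 x y x, fun x => h3 x x x, fun x => h4 x x x, fun x => h5 x x x,
    h6 A.one A.one A.one, fun x y => h7 x y x, fun x => h8 x x x, fun x y => h9 x y x,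
    fun x y => h10 x y x⟩

/-! ### The algebra with an absorbing element -/

/-- The elements of `C₃ˢ` and an absorbing element `z`. -/
inductive C4 where
  | e | c | n | z
  deriving DecidableEq, Fintype

/-- `C₃ˢ` with an absorbing element `z`. -/
def C4s : Alg C4 where
  mul x y := match x, y with
    | .e, y => y
    | x, .e => x
    | .z, _ => .z
    | _, .z => .z
    | .c, .c => .c
    | _, _ => .n
  neg x := match x with
    | .e => .e
    | .c => .n
    | .n => .c
    | .z => .z
  one := .e

/-- The inclusion. -/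
def emb : C3 → C4
  | .e => .e
  | .c => .c
  | .n => .n

/-- A left inverse of the inclusion. -/
def ret : C4 → C3
  | .e => .e
  | .c => .c
  | .n => .n
  | .z => .e

/-- `x` occurs in the term. -/
def Occ (x : ℕ) : Tm → Prop
  | .var i => i = x
  | .mul s t => Occ x s ∨ Occ x t
  | .neg s => Occ x s
  | .one => False

lemma mul4_z : ∀ a b : C4, C4s.mul a b = .z ↔ a = .z ∨ b = .z := by decide

lemma neg4_z : ∀ a : C4, C4s.neg a = .z ↔ a = .z := by decide

lemma mul3_e : ∀ a b : C3, C3s.mul a b = .e ↔ a = .e ∧ b = .e := by decide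

lemma neg3_e : ∀ a : C3, C3s.neg a = .e ↔ a = .e := by decide

lemma emb_mul : ∀ a b : C3, emb (C3s.mul a b) = C4s.mul (emb a) (emb b) := by decide

lemma emb_neg : ∀ a : C3, emb (C3s.neg a) = C4s.neg (emb a) := by decide

lemma emb_ret : ∀ a : C4, a ≠ .z → emb (ret a) = a := by decide

lemma eval4_z (v : ℕ → C4) : ∀ s : Tm, eval C4s v s = .z ↔ ∃ x, Occ x s ∧ v x = .z
  | .var i => by
    constructor
    · intro h
      exact ⟨i, rfl, h⟩
    · rintro ⟨x, hx, h⟩
      have : i = x := hx
      subst this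
      exact h
  | .mul s t => by
    change C4s.mul (eval C4s v s) (eval C4s v t) = .z ↔ _
    rw [mul4_z, eval4_z v s, eval4_z v t]
    constructor
    · rintro (⟨x, h1, h2⟩ | ⟨x, h1, h2⟩)
      · exact ⟨x, Or.inl h1, h2⟩
      · exact ⟨x, Or.inr h1, h2⟩
    · rintro ⟨x, h1 | h1, h2⟩
      · exact Or.inl ⟨x, h1, h2⟩
      · exact Or.inr ⟨x, h1, h2⟩
  | .neg s => by
    change C4s.neg (eval C4s v s) = .z ↔ _
    rw [neg4_z, eval4_z v s]
    exact Iff.rfl
  | .one => by
    constructor
    · intro h
      exact absurd (show C4.e = C4.z from h) (by decide)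
    · rintro ⟨x, hx, _⟩
      exact hx.elim

lemma eval3_e (v : ℕ → C3) : ∀ s : Tm, eval C3s v s = .e ↔ ∀ x, Occ x s → v x = .e
  | .var i => by
    constructor
    · rintro h x hx
      have : i = x := hx
      subst this
      exact h
    · intro h
      exact h i rfl
  | .mul s t => by
    change C3s.mul (eval C3s v s) (eval C3s v t) = .e ↔ _
    rw [mul3_e, eval3_e v s, eval3_e v t]
    constructor
    · rintro ⟨h1, h2⟩ x (hx | hx)
      · exact h1 x hx
      · exact h2 x hx
    · intro h
      exact ⟨fun x hx => h x (Or.inl hx), fun x hx => h x (Or.inr hx)⟩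
  | .neg s => by
    change C3s.neg (eval C3s v s) = .e ↔ _
    rw [neg3_e, eval3_e v s]
    exact Iff.rfl
  | .one => by
    constructor
    · rintro _ x hx
      exact hx.elim
    · intro _
      rfl

lemma eval_emb (v : ℕ → C4) : ∀ s : Tm, (∀ x, Occ x s → v x ≠ .z) →
    eval C4s v s = emb (eval C3s (fun i => ret (v i)) s)
  | .var i => fun h => (emb_ret _ (h i rfl)).symm
  | .mul s t => fun h => by
    change C4s.mul (eval C4s v s) (eval C4s v t) = _
    rw [eval_emb v s (fun x hx => h x (Or.inl hx)), eval_emb v t (fun x hx => h x (Or.inr hx)),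
      ← emb_mul]
    rfl
  | .neg s => fun h => by
    change C4s.neg (eval C4s v s) = _
    rw [eval_emb v s h, ← emb_neg]
    rfl
  | .one => fun _ => rfl

lemma occ_eq {s t : Tm} (h : Holds C3s (s, t)) (x : ℕ) : Occ x s ↔ Occ x t := by
  have h1 := h (fun i => if i = x then .c else .e)
  have key : ∀ r : Tm, eval C3s (fun i => if i = x then .c else .e) r = .e ↔ ¬ Occ x r := by
    intro r
    rw [eval3_e]
    constructor
    · intro h2 h3
      have := h2 x h3
      simp at this
    · intro h2 y hy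
      have : y ≠ x := by
        rintro rfl
        exact h2 hy
      simp [this]
  have h2 := key s
  have h3 := key t
  change eval C3s _ s = eval C3s _ t at h1
  rw [h1, h3] at h2
  tauto

lemma holds4 {s t : Tm} (h : Holds C3s (s, t)) : Holds C4s (s, t) := by
  intro v
  change eval C4s v s = eval C4s v t
  by_cases hz : ∃ x, Occ x s ∧ v x = .z
  · have hz' : ∃ x, Occ x t ∧ v x = .z := by
      obtain ⟨x, h1, h2⟩ := hz
      exact ⟨x, (occ_eq h x).mp h1, h2⟩
    rw [(eval4_z v s).mpr hz, (eval4_z v t).mpr hz']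
  · have h1 : ∀ x, Occ x s → v x ≠ .z := fun x hx hv => hz ⟨x, hx, hv⟩
    have h2 : ∀ x, Occ x t → v x ≠ .z := fun x hx => h1 x ((occ_eq h x).mpr hx)
    rw [eval_emb v s h1, eval_emb v t h2]
    exact congrArg emb (h _)

/-! ### Homomorphisms to the four-element algebra -/

/-- Homomorphisms. -/
structure Hom {M : Type u} (A : Alg M) (φ : M → C4) : Prop where
  mul : ∀ x y, φ (A.mul x y) = C4s.mul (φ x) (φ y)
  neg : ∀ x, φ (A.neg x) = C4s.neg (φ x)
  one : φ A.one = C4s.one

lemma Hom.eval {M : Type u} {A : Alg M} {φ : M → C4} (h : Hom A φ) (v : ℕ → M) :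
    ∀ s : Tm, φ (eval A v s) = FiniteBasis.eval C4s (fun i => φ (v i)) s
  | .var _ => rfl
  | .mul s t => by
    change φ (A.mul _ _) = C4s.mul _ _
    rw [h.mul, h.eval v s, h.eval v t]
  | .neg s => by
    change φ (A.neg _) = C4s.neg _
    rw [h.neg, h.eval v s]
  | .one => h.one

section Rep

variable {M : Type u} {A : Alg M} (L : Laws A)

/-- `⊥ₓ`. -/
def B (A : Alg M) (x : M) : M := A.mul x (A.neg x)

include L

lemma left_comm (x y z : M) : A.mul x (A.mul y z) = A.mul y (A.mul x z) := by
  rw [← L.assoc, L.comm x y, L.assoc]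

lemma B_neg (x : M) : B A (A.neg x) = B A x := by
  unfold B
  rw [L.neg_neg, L.comm]

lemma B_mul (x y : M) : B A (A.mul x y) = A.mul (B A x) (B A y) := L.bot_mul x y

lemma B_one : B A A.one = A.one := by
  unfold B
  rw [L.neg_one, L.one_mul]

lemma top_eq (x : M) : A.neg (A.mul (A.neg x) x) = A.neg (B A x) := by
  unfold B
  rw [L.comm]

lemma mul_top' (x : M) : A.mul x (A.neg (B A x)) = x := by
  rw [← top_eq L]
  exact L.mul_top x

lemma B_B (x : M) : B A (B A x) = B A x := by
  have h := mul_top' L x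
  change A.mul (B A x) (A.neg (B A x)) = B A x
  have : A.mul (B A x) (A.neg (B A x)) = A.mul (A.neg x) (A.mul x (A.neg (B A x))) := by
    conv_lhs => rw [show B A x = A.mul x (A.neg x) from rfl]
    rw [L.comm x (A.neg x), L.assoc]
    rw [show A.mul (A.neg x) x = B A x from L.comm _ _]
  rw [this, h, L.comm]
  rfl

lemma mul_B (x : M) : A.mul x (B A x) = B A x := by
  unfold B
  rw [← L.assoc, L.idem]

/-- The first kind of homomorphism: onto a two-element semilattice. -/
lemma hom_semilattice [DecidableEq M] (a : M) :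
    Hom A (fun x => if A.mul (B A a) (B A x) = B A a then C4.e else C4.z) := by
  have key : ∀ x y : M, (A.mul (B A a) (B A (A.mul x y)) = B A a) ↔
      (A.mul (B A a) (B A x) = B A a ∧ A.mul (B A a) (B A y) = B A a) := by
    intro x y
    rw [B_mul L]
    constructor
    · intro h
      constructor
      · conv_lhs => rw [← h]
        conv_rhs => rw [← h]
        rw [L.assoc, L.assoc, L.comm (B A y) (B A x), ← L.assoc (B A x), L.idem]
      · conv_lhs => rw [← h]
        conv_rhs => rw [← h]
        rw [L.assoc, L.assoc, L.idem]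
    · rintro ⟨h1, h2⟩
      rw [← L.assoc, h1, h2]
  refine ⟨?_, ?_, ?_⟩
  · intro x y
    by_cases h1 : A.mul (B A a) (B A x) = B A a <;> by_cases h2 : A.mul (B A a) (B A y) = B A a <;>
      simp [key, h1, h2] <;> rfl
  · intro x
    simp only [B_neg L]
    split_ifs <;> rfl
  · simp only [B_one L, L.comm _ A.one, L.one_mul]
    rfl

/-- The order of the fibre of `e`. -/
lemma frink' {e x y : M} (hx : B A x = e) (hy : B A y = e) :
    A.mul x y = x ↔ A.mul x (A.neg y) = e := by
  have hyT : ∀ w, B A w = e → A.mul w (A.neg e) = w := by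
    intro w hw
    have := mul_top' L w
    rw [hw] at this
    exact this
  constructor
  · intro h
    have h1 := L.frink x y
    rw [top_eq L, hx, hyT y hy, h] at h1
    rw [← h1]
    exact hx
  · intro h
    have h1 := L.frink x (A.neg y)
    rw [top_eq L, hx, hyT (A.neg y) (by rw [B_neg L, hy]), h, L.neg_neg, hyT x hx] at h1
    exact h1.symm

end Rep

/-- An ultrafilter of the fibre of `e`. -/
structure Ultra {M : Type u} (A : Alg M) (e : M) (U : Set M) : Prop where
  sub : ∀ x ∈ U, B A x = e
  mul : ∀ x ∈ U, ∀ y ∈ U, A.mul x y ∈ U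
  up : ∀ x ∈ U, ∀ y, B A y = e → A.mul x y = x → y ∈ U
  bot : e ∉ U
  ultra : ∀ x, B A x = e → x ∈ U ∨ A.neg x ∈ U

section Rep2

variable {M : Type u} {A : Alg M} (L : Laws A)

include L

lemma exists_ultra {e d : M} (hd : B A d = e) (hne : d ≠ e) :
    ∃ U, Ultra A e U ∧ d ∈ U := by
  let S : Set (Set M) := {U | (∀ x ∈ U, B A x = e) ∧ (∀ x ∈ U, ∀ y ∈ U, A.mul x y ∈ U) ∧
    (∀ x ∈ U, ∀ y, B A y = e → A.mul x y = x → y ∈ U) ∧ e ∉ U ∧ d ∈ U}
  have hee : A.mul e e = e := L.idem e
  have h0 : {x | B A x = e ∧ A.mul d x = d} ∈ S := by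
    refine ⟨fun x hx => hx.1, ?_, ?_, ?_, ⟨hd, L.idem d⟩⟩
    · rintro x ⟨hx1, hx2⟩ y ⟨hy1, hy2⟩
      refine ⟨by rw [B_mul L, hx1, hy1, hee], ?_⟩
      rw [← L.assoc, hx2, hy2]
    · rintro x ⟨hx1, hx2⟩ y hy hxy
      refine ⟨hy, ?_⟩
      conv_lhs => rw [← hx2]
      rw [L.assoc, hxy, hx2]
    · rintro ⟨_, h⟩
      apply hne
      have h1 := mul_B L d
      rw [hd, h] at h1
      exact h1
  obtain ⟨U, hU0, hU⟩ := zorn_subset_nonempty S (by
    intro c hc hchain hne'
    refine ⟨⋃₀ c, ⟨?_, ?_, ?_, ?_, ?_⟩, fun s hs => Set.subset_sUnion_of_mem hs⟩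
    · rintro x ⟨s, hs, hx⟩
      exact (hc hs).1 x hx
    · rintro x ⟨s, hs, hx⟩ y ⟨t, ht, hy⟩
      rcases hchain.total hs ht with h | h
      · exact ⟨t, ht, (hc ht).2.1 x (h hx) y hy⟩
      · exact ⟨s, hs, (hc hs).2.1 x hx y (h hy)⟩
    · rintro x ⟨s, hs, hx⟩ y hy hxy
      exact ⟨s, hs, (hc hs).2.2.1 x hx y hy hxy⟩
    · rintro ⟨s, hs, hx⟩
      exact (hc hs).2.2.2.1 hx
    · obtain ⟨s, hs⟩ := hne'
      exact ⟨s, hs, (hc hs).2.2.2.2⟩) _ h0
  obtain ⟨hS, hmax⟩ := hU
  obtain ⟨h1, h2, h3, h4, h5⟩ := hS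
  refine ⟨U, ⟨h1, h2, h3, h4, ?_⟩, h5⟩
  intro x hx
  by_contra hcon
  push Not at hcon
  obtain ⟨hx1, hx2⟩ := hcon
  -- the filter generated by `U` and `x`
  let U' : Set M := {y | B A y = e ∧ ∃ u ∈ U, A.mul (A.mul u x) y = A.mul u x}
  have hUU' : U ⊆ U' := by
    intro u hu
    refine ⟨h1 u hu, u, hu, ?_⟩
    rw [L.comm (A.mul u x) u, ← L.assoc, L.idem]
  have hxU' : x ∈ U' := by
    refine ⟨hx, d, h5, ?_⟩
    rw [L.assoc, L.idem]
  by_cases heU : e ∈ U'
  · obtain ⟨_, u, hu, h6⟩ := heU
    have h7 : B A (A.mul u x) = e := by rw [B_mul L, h1 u hu, hx, hee]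
    have h8 := mul_B L (A.mul u x)
    rw [h7, h6] at h8
    have h9 : A.mul u (A.neg (A.neg x)) = e := by
      rw [L.neg_neg]
      exact h8
    have h10 := (frink' L (h1 u hu) (show B A (A.neg x) = e by rw [B_neg L, hx])).mpr h9
    exact hx2 (h3 u hu _ (by rw [B_neg L, hx]) h10)
  · have hU'S : U' ∈ S := by
      refine ⟨fun y hy => hy.1, ?_, ?_, heU, hUU' h5⟩
      · rintro y ⟨hy, u, hu, hy2⟩ w ⟨hw, u', hu', hw2⟩
        refine ⟨by rw [B_mul L, hy, hw, hee], A.mul u u', h2 u hu u' hu', ?_⟩
        have e1 : A.mul (A.mul u u') x = A.mul (A.mul u x) (A.mul u' x) := by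
          rw [L.assoc, L.assoc, left_comm L x u' x, L.idem]
        rw [e1, ← L.assoc (A.mul (A.mul u x) (A.mul u' x)) y w,
          L.assoc (A.mul u x) (A.mul u' x) y, L.comm (A.mul u' x) y,
          ← L.assoc (A.mul u x) y, hy2, L.assoc (A.mul u x), hw2]
      · rintro y ⟨hy, u, hu, hy2⟩ w hw hyw
        refine ⟨hw, u, hu, ?_⟩
        conv_lhs => rw [← hy2]
        rw [L.assoc (A.mul u x), hyw, hy2]
    exact hx1 (hmax hU'S hUU' hxU')

open Classical in
/-- The second kind of homomorphism. -/
lemma hom_ultra {e : M} (he : B A e = e) {U : Set M} (hU : Ultra A e U) :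
    Hom A (fun x => if A.mul e (B A x) = e then
      (if A.mul (B A x) (A.neg e) ∈ U then C4.e else
        if A.mul x (A.neg e) ∈ U then C4.c else C4.n) else C4.z) := by
  have hee : A.mul e e = e := L.idem e
  have hT : B A (A.neg e) = e := by rw [B_neg L, he]
  have hKf : ∀ x, A.mul e (B A x) = e → B A (A.mul x (A.neg e)) = e := by
    intro x hx
    rw [B_mul L, hT, L.comm, hx]
  have hKz : ∀ x, A.mul e (B A x) = e → B A (A.mul (B A x) (A.neg e)) = e := by
    intro x hx
    rw [B_mul L, hT, B_B L, L.comm, hx]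
  have hmem : ∀ x y, B A x = e → B A y = e → (A.mul x y ∈ U ↔ x ∈ U ∧ y ∈ U) := by
    intro x y hx hy
    constructor
    · intro h
      refine ⟨hU.up _ h x hx ?_, hU.up _ h y hy ?_⟩
      · rw [L.comm (A.mul x y) x, ← L.assoc, L.idem]
      · rw [L.assoc, L.idem]
    · rintro ⟨h1, h2⟩
      exact hU.mul x h1 y h2
  have hneg : ∀ x, B A x = e → (A.neg x ∈ U ↔ x ∉ U) := by
    intro x hx
    constructor
    · intro h1 h2
      apply hU.bot
      have := hU.mul x h2 _ h1
      rw [show A.mul x (A.neg x) = B A x from rfl, hx] at this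
      exact this
    · intro h
      exact (hU.ultra x hx).resolve_left h
  have htop : A.neg e ∈ U := by
    rw [hneg e he]
    exact hU.bot
  have hle : ∀ x, A.mul e (B A x) = e → A.mul (B A x) (A.neg e) ∈ U →
      A.mul x (A.neg e) ∈ U := by
    intro x hx h
    refine hU.up _ h _ (hKf x hx) ?_
    rw [L.assoc, L.comm (A.neg e) (A.mul x (A.neg e)), L.assoc, L.idem, ← L.assoc,
      L.comm (B A x) x, mul_B L]
  have hKmul : ∀ x y : M, (A.mul e (B A (A.mul x y)) = e) ↔
      (A.mul e (B A x) = e ∧ A.mul e (B A y) = e) := by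
    intro x y
    rw [B_mul L]
    constructor
    · intro h
      constructor
      · conv_lhs => rw [← h]
        conv_rhs => rw [← h]
        rw [L.assoc, L.assoc, L.comm (B A y) (B A x), ← L.assoc (B A x), L.idem]
      · conv_lhs => rw [← h]
        conv_rhs => rw [← h]
        rw [L.assoc, L.assoc, L.idem]
    · rintro ⟨h1, h2⟩
      rw [← L.assoc, h1, h2]
  have hdist : ∀ x y, A.mul (A.mul x y) (A.neg e) =
      A.mul (A.mul x (A.neg e)) (A.mul y (A.neg e)) := by
    intro x y
    rw [L.assoc x (A.neg e), left_comm L (A.neg e) y, L.idem, ← L.assoc]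
  refine ⟨?_, ?_, ?_⟩
  · intro x y
    by_cases h1 : A.mul e (B A x) = e
    swap
    · have h3 : ¬ (A.mul e (B A (A.mul x y)) = e) := fun h => h1 ((hKmul x y).mp h).1
      simp only [h1, h3, if_false]
      split_ifs <;> rfl
    by_cases h2 : A.mul e (B A y) = e
    swap
    · have h3 : ¬ (A.mul e (B A (A.mul x y)) = e) := fun h => h2 ((hKmul x y).mp h).2
      simp only [h2, h3, if_false]
      split_ifs <;> rfl
    have h3 := (hKmul x y).mpr ⟨h1, h2⟩
    have h4 : A.mul (B A (A.mul x y)) (A.neg e) ∈ U ↔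
        A.mul (B A x) (A.neg e) ∈ U ∧ A.mul (B A y) (A.neg e) ∈ U := by
      rw [B_mul L, hdist, hmem _ _ (hKz x h1) (hKz y h2)]
    have h5 : A.mul (A.mul x y) (A.neg e) ∈ U ↔
        A.mul x (A.neg e) ∈ U ∧ A.mul y (A.neg e) ∈ U := by
      rw [hdist, hmem _ _ (hKf x h1) (hKf y h2)]
    simp only [h1, h2, h3, if_true, h4, h5]
    by_cases h6 : A.mul (B A x) (A.neg e) ∈ U <;> by_cases h7 : A.mul (B A y) (A.neg e) ∈ U
    · simp only [h6, h7, and_self, if_true]
      rfl
    · have h8 := hle x h1 h6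
      simp only [h6, h7, h8, and_false, if_false, if_true, true_and]
      split_ifs <;> rfl
    · have h8 := hle y h2 h7
      simp only [h6, h7, h8, false_and, if_false, if_true, and_true]
      split_ifs <;> rfl
    · simp only [h6, h7, and_self, if_false]
      by_cases h8 : A.mul x (A.neg e) ∈ U <;> by_cases h9 : A.mul y (A.neg e) ∈ U <;>
        simp only [h8, h9, and_self, and_true, and_false, true_and, false_and, if_true, if_false] <;>
        rfl
  · intro x
    simp only [B_neg L]
    by_cases h1 : A.mul e (B A x) = e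
    swap
    · simp only [h1, if_false]
      rfl
    by_cases h2 : A.mul (B A x) (A.neg e) ∈ U
    · simp only [h1, h2, if_true]
      rfl
    have h3 : A.mul (A.neg x) (A.neg e) =
        A.neg (A.mul (A.neg (A.mul (B A x) (A.neg e))) (A.mul x (A.neg e))) := by
      have h := L.push x e
      rw [top_eq L, B_mul L, he, L.comm (B A x) e, h1] at h
      exact h
    have h4 : A.mul (A.neg x) (A.neg e) ∈ U ↔ A.mul x (A.neg e) ∉ U := by
      have h5 : B A (A.neg (A.mul (B A x) (A.neg e))) = e := by rw [B_neg L, hKz x h1]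
      rw [h3, hneg _ (by rw [B_mul L, h5, hKf x h1, hee]), hmem _ _ h5 (hKf x h1),
        hneg _ (hKz x h1)]
      tauto
    simp only [h1, h2, if_true, if_false, h4]
    by_cases h6 : A.mul x (A.neg e) ∈ U
    · simp only [h6, not_true, if_false, if_true]
      rfl
    · simp only [h6, not_false_eq_true, if_false, if_true]
      rfl
  · simp only [B_one L, L.one_mul, L.comm _ A.one, htop, if_true]
    rfl

open Classical in
/-- Homomorphisms into the four-element algebra separate the points. -/
lemma separate {a b : M} (hab : a ≠ b) : ∃ φ : M → C4, Hom A φ ∧ φ a ≠ φ b := by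
  by_cases h : B A a = B A b
  · have hBe : B A (B A a) = B A a := B_B L a
    have main : ∀ a b : M, B A a = B A b → A.mul a b ≠ a → ∃ φ : M → C4, Hom A φ ∧ φ a ≠ φ b := by
      intro a b h hne
      have hBe : B A (B A a) = B A a := B_B L a
      have hd : B A (A.mul a (A.neg b)) = B A a := by
        rw [B_mul L, B_neg L, ← h, L.idem]
      have hne' : A.mul a (A.neg b) ≠ B A a := by
        intro h1
        exact hne ((frink' L rfl h.symm).mpr h1)
      obtain ⟨U, hU, hdU⟩ := exists_ultra L hd hne'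
      refine ⟨_, hom_ultra L hBe hU, ?_⟩
      have h1 : a ∈ U := by
        refine hU.up _ hdU a rfl ?_
        rw [L.comm (A.mul a (A.neg b)) a, ← L.assoc, L.idem]
      have h2 : A.neg b ∈ U := by
        refine hU.up _ hdU _ (by rw [B_neg L, h]) ?_
        rw [L.assoc, L.idem]
      have h3 : b ∉ U := by
        intro h3
        apply hU.bot
        have := hU.mul b h3 _ h2
        rw [show A.mul b (A.neg b) = B A b from rfl, ← h] at this
        exact this
      have e1 : A.mul a (A.neg (B A a)) = a := mul_top' L a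
      have e2 : A.mul b (A.neg (B A a)) = b := by
        rw [h]
        exact mul_top' L b
      have e3 : A.mul (B A a) (A.neg (B A a)) = B A a := hBe
      simp only [← h, L.idem, e1, e2, e3, hU.bot, h1, h3, if_true, if_false]
      decide
    by_cases h1 : A.mul a b = a
    · by_cases h2 : A.mul b a = b
      · exfalso
        apply hab
        rw [← h1, L.comm, h2]
      · obtain ⟨φ, h3, h4⟩ := main b a h.symm h2
        exact ⟨φ, h3, h4.symm⟩
    · exact main a b h h1
  · by_cases h1 : A.mul (B A a) (B A b) = B A a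
    · by_cases h2 : A.mul (B A b) (B A a) = B A b
      · exfalso
        apply h
        rw [← h1, L.comm, h2]
      · refine ⟨_, hom_semilattice L b, ?_⟩
        simp only [L.idem, h2, if_true, if_false]
        decide
    · refine ⟨_, hom_semilattice L a, ?_⟩
      simp only [L.idem, h1, if_true, if_false]
      decide

end Rep2

/-- The list `basis` is a finite equational basis of the variety generated by `C₃ˢ`: its
members hold in `C₃ˢ`, and an algebra satisfying them satisfies every identity which is valid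
in `C₃ˢ`. -/
theorem result :
    (∀ p ∈ basis, Holds C3s p) ∧
    ∀ (M : Type u) (A : Alg M), (∀ p ∈ basis, Holds A p) →
      ∀ s t : Tm, Holds C3s (s, t) → Holds A (s, t) := by
  refine ⟨?_, ?_⟩
  · have key : ∀ a b c : C3, ∀ p ∈ basis,
        eval C3s (fun i => if i = 0 then a else if i = 1 then b else c) p.1 =
        eval C3s (fun i => if i = 0 then a else if i = 1 then b else c) p.2 := by
      intro a b c
      simp only [basis, List.mem_cons, List.not_mem_nil, or_false, forall_eq_or_imp, forall_eq,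
        eval, vx, vy, vz, Tm.bot, Tm.top]
      simp only [if_true, one_ne_zero, if_false, OfNat.ofNat_ne_zero, OfNat.ofNat_ne_one]
      revert a b c
      decide
    intro p hp v
    have h1 := key (v 0) (v 1) (v 2) p hp
    have h2 : ∀ q ∈ basis, ∀ r : Tm, (r = q.1 ∨ r = q.2) →
        eval C3s (fun i => if i = 0 then v 0 else if i = 1 then v 1 else v 2) r =
          eval C3s v r := by
      intro q hq r hr
      simp only [basis, List.mem_cons, List.not_mem_nil, or_false] at hq
      rcases hq with rfl | rfl | rfl | rfl | rfl | rfl | rfl | rfl | rfl | rfl <;>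
        rcases hr with rfl | rfl <;> rfl
    rw [h2 p hp _ (Or.inl rfl), h2 p hp _ (Or.inr rfl)] at h1
    exact h1
  · intro M A hA s t hst v
    have L := laws_of_basis A hA
    by_contra hne
    obtain ⟨φ, hφ, hne'⟩ := separate L hne
    apply hne'
    change φ (eval A v s) = φ (eval A v t)
    rw [hφ.eval, hφ.eval]
    exact holds4 hst _

end Pool.Agent.Results.MP_7f507d_al.FiniteBasis
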